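import Pool.Agent.X49.Theta

/-!
# MP_50682e: the saturation numbers of the families `C_[4,r]`

The equality `sat(n, C_[4,r]) = ⌈5n/4 - 3/2⌉` fails for every odd `r ≥ 9`, for infinitely many `n`:
the generalised theta graph made of `D` paths with `q` inner vertices each between two fixed
vertices has `D q + 2` vertices, `D (q + 1)` edges, and it is `C_[4,2q+1]`-saturated, as all its
cycles have length `2 q + 2` and any two of its vertices lie on one of them.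
-/

namespace Pool.Agent.Results.MP_50682e_co.ThetaGraphs

open SimpleGraph Pool.Agent.X49

/-- `G` is `C_I`-saturated: it contains no cycle `C_l` with `l ∈ I`, but adding the edge between
any two nonadjacent vertices creates one. -/
def Saturated {V : Type} (I : Set ℕ) (G : SimpleGraph V) : Prop :=
  (∀ l ∈ I, ¬ (cycleGraph l) ⊑ G) ∧
    ∀ x y : V, x ≠ y → ¬ G.Adj x y → ∃ l ∈ I, (cycleGraph l) ⊑ G ⊔ edge x y

/-- The saturation number: the least number of edges of a `C_I`-saturated graph on `n` vertices. -/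
noncomputable def sat (n : ℕ) (I : Set ℕ) : ℕ :=
  sInf {m | ∃ (V : Type) (_ : Finite V) (G : SimpleGraph V),
    Nat.card V = n ∧ Saturated I G ∧ G.edgeSet.ncard = m}

theorem sat_le (q D : ℕ) (hq : 1 ≤ q) (hD : 2 ≤ D) (h : 2 ≤ q) :
    sat (D * q + 2) (Set.Icc 4 (2 * q + 1)) ≤ D * (q + 1) := by
  refine le_trans (Nat.sInf_le ⟨TV D q, inferInstance, theta D q, card_TV, ?_, rfl⟩)
    (theta_edges hq)
  obtain ⟨h1, h2⟩ := theta_saturated (D := D) hq hD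
  refine ⟨fun l hl => h1 l (by have := hl.1; omega) hl.2, fun x y hne hadj => ?_⟩
  obtain ⟨l, h3, h4, h5⟩ := h2 x y hne hadj
  exact ⟨l, ⟨by omega, h4⟩, h5⟩

theorem lt_ceil (q D : ℕ) (hq : 4 ≤ q) :
    ((D * (q + 1) : ℕ) : ℤ) < ⌈5 * ((D * q + 2 : ℕ) : ℚ) / 4 - 3 / 2⌉ := by
  rw [Int.lt_ceil]
  have h1 : (D * 4 : ℚ) ≤ D * q := by
    apply mul_le_mul_of_nonneg_left _ (by positivity)
    exact_mod_cast hq
  push_cast
  linarith

/-- **Negative answer to Q1.** For all `q ≥ 4` and `D ≥ 2`, the saturation number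
`sat(n, C_[4,2q+1])` with `n = D q + 2` is at most `D (q + 1)`, which is smaller than
`⌈5n/4 - 3/2⌉`. So the proposed equality fails for every odd `r ≥ 9`, each time for infinitely
many `n`. -/
theorem result :
    (∀ q D : ℕ, 4 ≤ q → 2 ≤ D →
      sat (D * q + 2) (Set.Icc 4 (2 * q + 1)) ≤ D * (q + 1) ∧
      ((D * (q + 1) : ℕ) : ℤ) < ⌈5 * ((D * q + 2 : ℕ) : ℚ) / 4 - 3 / 2⌉) ∧
    (∀ r : ℕ, 9 ≤ r → Odd r → ∀ N : ℕ, ∃ n, N ≤ n ∧
      (sat n (Set.Icc 4 r) : ℤ) < ⌈5 * (n : ℚ) / 4 - 3 / 2⌉) ∧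
    ¬ ∀ r : ℕ, 5 ≤ r → ∃ N : ℕ, ∀ n, N ≤ n →
      (sat n (Set.Icc 4 r) : ℤ) = ⌈5 * (n : ℚ) / 4 - 3 / 2⌉ := by
  have h1 : ∀ q D : ℕ, 4 ≤ q → 2 ≤ D →
      sat (D * q + 2) (Set.Icc 4 (2 * q + 1)) ≤ D * (q + 1) ∧
      ((D * (q + 1) : ℕ) : ℤ) < ⌈5 * ((D * q + 2 : ℕ) : ℚ) / 4 - 3 / 2⌉ :=
    fun q D hq hD => ⟨sat_le q D (by omega) hD (by omega), lt_ceil q D hq⟩
  have h2 : ∀ r : ℕ, 9 ≤ r → Odd r → ∀ N : ℕ, ∃ n, N ≤ n ∧
      (sat n (Set.Icc 4 r) : ℤ) < ⌈5 * (n : ℚ) / 4 - 3 / 2⌉ := by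
    intro r hr hodd N
    obtain ⟨q, rfl⟩ := hodd
    obtain ⟨h3, h4⟩ := h1 q (N + 2) (by omega) (by omega)
    refine ⟨(N + 2) * q + 2, ?_, lt_of_le_of_lt (by exact_mod_cast h3) h4⟩
    have : (N + 2) * 1 ≤ (N + 2) * q := Nat.mul_le_mul_left _ (by omega)
    omega
  refine ⟨h1, h2, fun h => ?_⟩
  obtain ⟨N, hN⟩ := h 9 (by norm_num)
  obtain ⟨n, hn, hlt⟩ := h2 9 le_rfl (by decide) N
  exact absurd (hN n hn) hlt.ne

end Pool.Agent.Results.MP_50682e_co.ThetaGraphs
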